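import Mathlib

set_option autoImplicit false

namespace Pool.Agent.H.MP_7399ce_lc

abbrev V := ℕ × ℕ × ℕ × ℕ × ℕ

def adj (b a : V) : Prop :=
  ((b.1 = 4 ∨ b.1 = 5) ∧ (a.1 = 0 ∧ (a.2.1 < b.2.1 ∨ a.2.1 = b.2.1 ∧ a.2.2.1 = b.2.2.1) ∨ a.1 = 1 ∨
    a.1 = 2 ∧ (a.2.1 < b.2.2.2.1 ∨ a.2.1 = b.2.2.2.1 ∧ a.2.2.1 = b.2.2.2.2))) ∨
  (b.1 = 6 ∧ (a.1 = 2 ∨ a.1 = 3)) ∨ (b.1 = 7 ∧ a.1 = 2 ∧ a.2.1 = b.2.2.2.1) ∨
  (b.1 = 8 ∧ (a.1 = 1 ∨ a.1 = 3 ∨ a.1 = 2 ∧ a.2.1 ≠ b.2.2.2.1))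

instance (b a : V) : Decidable (adj b a) := by unfold adj; infer_instance

def key (m : ℕ) (v : V) : ℕ :=
  if v.1 = 0 ∨ v.1 = 4 then 15 * m - 3 * v.2.1 - v.2.2.1 else if v.1 = 1 then 15 * m + 1
  else if v.1 = 2 then 18 * m + 2 + 2 * v.2.1 + v.2.2.1 else if v.1 = 3 ∨ v.1 = 6 then 24 * m + 2
  else if v.1 = 5 then (if v.2.2.2.2 = 1 then 3 * m - v.2.2.2.1 else 15 * m + 2 + v.2.2.2.1)
  else if v.1 = 7 then 18 * m + 2 + 2 * v.2.2.2.1 else 24 * m + 3 + v.2.2.2.1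

def ok (m : ℕ) (v : V) : Prop :=
  (v.1 = 0 → v.2.1 < 4 * m ∧ v.2.2.1 < 3) ∧ (v.1 = 2 → v.2.1 < 3 * m ∧ v.2.2.1 < 2) ∧
  (4 ≤ v.1 → v.2.2.2.1 < 3 * m ∧ v.2.2.2.2 < 2) ∧ (v.1 = 4 → v.2.1 = 3 * m + v.2.2.2.1 / 3 ∧ v.2.2.1 < 3) ∧
  (v.1 = 5 → v.2.1 < 3 * m ∧ v.2.2.1 = v.2.2.2.2)

def two (b c : V) : Prop := b.1 = c.1 → b.2.2.2.1 = c.2.2.2.1 → b.1 = 4 ∨ b.1 = 5 → b.2.1 = c.2.1 ∧
  (b.2.2.1 < c.2.2.1 ↔ b.2.2.2.2 < c.2.2.2.2) ∧ (c.2.2.1 < b.2.2.1 ↔ c.2.2.2.2 < b.2.2.2.2)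

lemma tags {b a : V} (h : adj b a) : (b.1 = 4 ∨ b.1 = 5 ∨ b.1 = 6 ∨ b.1 = 7 ∨ b.1 = 8) ∧
    (a.1 = 0 ∨ a.1 = 1 ∨ a.1 = 2 ∨ a.1 = 3) := by unfold adj at h; omega

lemma geo4 {m : ℕ} {b a c d : V} (t : b.1 = 4) (h1 : ok m b) (h2 : ok m a) (h3 : ok m c) (h4 : ok m d)
    (h5 : two b c) (e1 : adj b a) (e2 : adj c d) (n1 : ¬adj b d) (n2 : ¬adj c a) :
    ¬(min (key m b) (key m a) ≤ min (key m c) (key m d) ∧ min (key m c) (key m d) ≤ max (key m b) (key m a) ∧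
      max (key m b) (key m a) ≤ max (key m c) (key m d)) := by
  have t1 := (tags e1).2
  have t2 := tags e2
  obtain ⟨b1, b2, b3, b4, b5⟩ := b
  obtain ⟨a1, a2, a3, a4, a5⟩ := a
  obtain ⟨c1, c2, c3, c4, c5⟩ := c
  obtain ⟨d1, d2, d3, d4, d5⟩ := d
  dsimp only at t t1 t2
  subst t
  unfold adj at e1 e2 n1 n2
  unfold ok at h1 h2 h3 h4
  unfold two at h5
  unfold key
  dsimp only at *
  obtain rfl | rfl | rfl | rfl := t1 <;> obtain ⟨rfl | rfl | rfl | rfl | rfl, rfl | rfl | rfl | rfl⟩ := t2 <;>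
  simp only [Nat.reduceEqDiff, Nat.reduceLeDiff, true_and, and_true, false_and, and_false, or_true,
    false_or, or_false, false_imp_iff, true_imp_iff, not_true_eq_false, not_false_eq_true, reduceIte, le_refl]
    at * <;> (try split_ifs) <;> omega

lemma geo5 {m : ℕ} {b a c d : V} (t : b.1 = 5) (h1 : ok m b) (h2 : ok m a) (h3 : ok m c) (h4 : ok m d)
    (h5 : two b c) (e1 : adj b a) (e2 : adj c d) (n1 : ¬adj b d) (n2 : ¬adj c a) :
    ¬(min (key m b) (key m a) ≤ min (key m c) (key m d) ∧ min (key m c) (key m d) ≤ max (key m b) (key m a) ∧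
      max (key m b) (key m a) ≤ max (key m c) (key m d)) := by
  have t1 := (tags e1).2
  have t2 := tags e2
  obtain ⟨b1, b2, b3, b4, b5⟩ := b
  obtain ⟨a1, a2, a3, a4, a5⟩ := a
  obtain ⟨c1, c2, c3, c4, c5⟩ := c
  obtain ⟨d1, d2, d3, d4, d5⟩ := d
  dsimp only at t t1 t2
  subst t
  unfold adj at e1 e2 n1 n2
  unfold ok at h1 h2 h3 h4
  unfold two at h5
  unfold key
  dsimp only at *
  obtain rfl | rfl | rfl | rfl := t1 <;> obtain ⟨rfl | rfl | rfl | rfl | rfl, rfl | rfl | rfl | rfl⟩ := t2 <;>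
  simp only [Nat.reduceEqDiff, Nat.reduceLeDiff, true_and, and_true, false_and, and_false, or_true,
    false_or, or_false, false_imp_iff, true_imp_iff, not_true_eq_false, not_false_eq_true, reduceIte, le_refl]
    at * <;> (try split_ifs) <;> omega

lemma geo6 {m : ℕ} {b a c d : V} (t : b.1 = 6) (h1 : ok m b) (h2 : ok m a) (h3 : ok m c) (h4 : ok m d)
    (h5 : two b c) (e1 : adj b a) (e2 : adj c d) (n1 : ¬adj b d) (n2 : ¬adj c a) :
    ¬(min (key m b) (key m a) ≤ min (key m c) (key m d) ∧ min (key m c) (key m d) ≤ max (key m b) (key m a) ∧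
      max (key m b) (key m a) ≤ max (key m c) (key m d)) := by
  have t1 := (tags e1).2
  have t2 := tags e2
  obtain ⟨b1, b2, b3, b4, b5⟩ := b
  obtain ⟨a1, a2, a3, a4, a5⟩ := a
  obtain ⟨c1, c2, c3, c4, c5⟩ := c
  obtain ⟨d1, d2, d3, d4, d5⟩ := d
  dsimp only at t t1 t2
  subst t
  unfold adj at e1 e2 n1 n2
  unfold ok at h1 h2 h3 h4
  unfold two at h5
  unfold key
  dsimp only at *
  obtain rfl | rfl | rfl | rfl := t1 <;> obtain ⟨rfl | rfl | rfl | rfl | rfl, rfl | rfl | rfl | rfl⟩ := t2 <;>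
  simp only [Nat.reduceEqDiff, Nat.reduceLeDiff, true_and, and_true, false_and, and_false, or_true,
    false_or, or_false, false_imp_iff, true_imp_iff, not_true_eq_false, not_false_eq_true, reduceIte, le_refl]
    at * <;> (try split_ifs) <;> omega

lemma geo7 {m : ℕ} {b a c d : V} (t : b.1 = 7) (h1 : ok m b) (h2 : ok m a) (h3 : ok m c) (h4 : ok m d)
    (h5 : two b c) (e1 : adj b a) (e2 : adj c d) (n1 : ¬adj b d) (n2 : ¬adj c a) :
    ¬(min (key m b) (key m a) ≤ min (key m c) (key m d) ∧ min (key m c) (key m d) ≤ max (key m b) (key m a) ∧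
      max (key m b) (key m a) ≤ max (key m c) (key m d)) := by
  have t1 := (tags e1).2
  have t2 := tags e2
  obtain ⟨b1, b2, b3, b4, b5⟩ := b
  obtain ⟨a1, a2, a3, a4, a5⟩ := a
  obtain ⟨c1, c2, c3, c4, c5⟩ := c
  obtain ⟨d1, d2, d3, d4, d5⟩ := d
  dsimp only at t t1 t2
  subst t
  unfold adj at e1 e2 n1 n2
  unfold ok at h1 h2 h3 h4
  unfold two at h5
  unfold key
  dsimp only at *
  obtain rfl | rfl | rfl | rfl := t1 <;> obtain ⟨rfl | rfl | rfl | rfl | rfl, rfl | rfl | rfl | rfl⟩ := t2 <;>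
  simp only [Nat.reduceEqDiff, Nat.reduceLeDiff, true_and, and_true, false_and, and_false, or_true,
    false_or, or_false, false_imp_iff, true_imp_iff, not_true_eq_false, not_false_eq_true, reduceIte, le_refl]
    at * <;> (try split_ifs) <;> omega

lemma geo8 {m : ℕ} {b a c d : V} (t : b.1 = 8) (h1 : ok m b) (h2 : ok m a) (h3 : ok m c) (h4 : ok m d)
    (h5 : two b c) (e1 : adj b a) (e2 : adj c d) (n1 : ¬adj b d) (n2 : ¬adj c a) :
    ¬(min (key m b) (key m a) ≤ min (key m c) (key m d) ∧ min (key m c) (key m d) ≤ max (key m b) (key m a) ∧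
      max (key m b) (key m a) ≤ max (key m c) (key m d)) := by
  have t1 := (tags e1).2
  have t2 := tags e2
  obtain ⟨b1, b2, b3, b4, b5⟩ := b
  obtain ⟨a1, a2, a3, a4, a5⟩ := a
  obtain ⟨c1, c2, c3, c4, c5⟩ := c
  obtain ⟨d1, d2, d3, d4, d5⟩ := d
  dsimp only at t t1 t2
  subst t
  unfold adj at e1 e2 n1 n2
  unfold ok at h1 h2 h3 h4
  unfold two at h5
  unfold key
  dsimp only at *
  obtain rfl | rfl | rfl | rfl := t1 <;> obtain ⟨rfl | rfl | rfl | rfl | rfl, rfl | rfl | rfl | rfl⟩ := t2 <;>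
  simp only [Nat.reduceEqDiff, Nat.reduceLeDiff, true_and, and_true, false_and, and_false, or_true,
    false_or, or_false, false_imp_iff, true_imp_iff, not_true_eq_false, not_false_eq_true, reduceIte, le_refl]
    at * <;> (try split_ifs) <;> omega

lemma geo {m : ℕ} {b a c d : V} (h1 : ok m b) (h2 : ok m a) (h3 : ok m c) (h4 : ok m d)
    (h5 : two b c) (e1 : adj b a) (e2 : adj c d) (n1 : ¬adj b d) (n2 : ¬adj c a) :
    ¬(min (key m b) (key m a) ≤ min (key m c) (key m d) ∧ min (key m c) (key m d) ≤ max (key m b) (key m a) ∧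
      max (key m b) (key m a) ≤ max (key m c) (key m d)) := by
  rcases (tags e1).1 with t | t | t | t | t
  exacts [geo4 t h1 h2 h3 h4 h5 e1 e2 n1 n2, geo5 t h1 h2 h3 h4 h5 e1 e2 n1 n2, geo6 t h1 h2 h3 h4 h5 e1 e2 n1 n2,
    geo7 t h1 h2 h3 h4 h5 e1 e2 n1 n2, geo8 t h1 h2 h3 h4 h5 e1 e2 n1 n2]

end Pool.Agent.H.MP_7399ce_lc
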