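import Pool.Agent.H.MP_7399ce_lc.A
import Pool.Agent.Lib.lead.CXGraphRed

set_option autoImplicit false

namespace Pool.Agent.H.MP_7399ce_lc
open Pool.Agent.Lib.CX

/-- the four positions are met in this cyclic order -/
def Cyc4 (a b c d : ℕ) : Prop :=
  (a < b ∧ b < c ∧ c < d) ∨ (b < c ∧ c < d ∧ d < a) ∨ (c < d ∧ d < a ∧ a < b) ∨ (d < a ∧ a < b ∧ b < c)

/-- the vertices can be placed around a circle without an alternating-edge obstruction -/
def Good {W : Type} (G : SimpleGraph W) : Prop := ∃ pos : W → ℕ, Function.Injective pos ∧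
  ¬∃ a b c d, Cyc4 (pos a) (pos b) (pos c) (pos d) ∧ G.Adj a c ∧ G.Adj b d ∧
    ¬G.Adj a b ∧ ¬G.Adj b c ∧ ¬G.Adj c d ∧ ¬G.Adj d a

def var (φ : List (T3 ℕ)) (k : ℕ) : ℕ := (φ.getD (k / 3) (0, 0, 0)).vars.getD (k % 3) 0

def vs (φ : List (T3 ℕ)) : List V :=
  (List.range (4 * φ.length) ×ˢ List.range 3).map (fun p => (0, p.1, p.2, 0, 0)) ++
  (List.range (3 * φ.length)).flatMap fun k => [(1, 0, 0, 0, 0), (3, 0, 0, 0, 0), (6, 0, 0, 0, 0), (2, k, 0, 0, 0),
    (2, k, 1, 0, 0), (4, 3 * φ.length + k / 3, k % 3, k, 0), (4, 3 * φ.length + k / 3, (k + 1) % 3, k, 1),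
    (5, var φ k, 0, k, 0), (5, var φ k, 1, k, 1), (7, 0, 0, k, 0), (8, 0, 0, k, 0)]

def es (φ : List (T3 ℕ)) : List (V × V) := (vs φ ×ˢ vs φ).filter fun e => adj e.1 e.2

def gr (φ : List (T3 ℕ)) : Gr := mkGr (vs φ) (es φ)

def E (x y : V) : Prop := adj x y ∨ adj y x

lemma gr_adj (φ : List (T3 ℕ)) (u v : Fin (gr φ).n) :
    (gr φ).G.Adj u v ↔ E (mkGrIso (vs φ) (es φ) u).1 (mkGrIso (vs φ) (es φ) v).1 := by
  refine (mkGrIso (vs φ) (es φ)).map_rel_iff.symm.trans ?_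
  obtain ⟨x, hx⟩ := mkGrIso (vs φ) (es φ) u
  obtain ⟨y, hy⟩ := mkGrIso (vs φ) (es φ) v
  have h1 : (x, y) ∈ vs φ ×ˢ vs φ := List.pair_mem_product.2 ⟨hx, hy⟩
  have h2 : (y, x) ∈ vs φ ×ˢ vs φ := List.pair_mem_product.2 ⟨hy, hx⟩
  simp only [SimpleGraph.comap_adj, Function.Embedding.subtype_apply, SimpleGraph.fromRel_adj, es, List.mem_filter,
    h1, h2, true_and, decide_eq_true_eq, E, and_iff_right_iff_imp]
  rintro h rfl
  have := tags (h.elim id id); omega

lemma gr_bip (φ : List (T3 ℕ)) : (gr φ).G.Colorable 2 :=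
  (mkGr_colorable _ _ 2).2 ⟨fun v => if v.1 < 4 then 0 else 1, fun e he _ _ _ => by
    have := tags (of_decide_eq_true (List.mem_filter.1 he).2)
    simp only [if_neg (show ¬e.1.1 < 4 by omega), if_pos (show e.2.1 < 4 by omega)]; decide⟩

def par (x y u v : ℕ) : Prop := ((x < u ↔ y < u) ↔ (x < v ↔ y < v))
def cyc (z x y : ℕ) : Prop := (z < x ∧ x < y) ∨ (x < y ∧ y < z) ∨ (y < z ∧ z < x)

section
variable {φ : List (T3 ℕ)} {pos : V → ℕ} (inj : ∀ x ∈ vs φ, ∀ y ∈ vs φ, pos x = pos y → x = y)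
  (no : ∀ a ∈ vs φ, ∀ b ∈ vs φ, ∀ c ∈ vs φ, ∀ d ∈ vs φ, Cyc4 (pos a) (pos b) (pos c) (pos d) → E a c → E b d →
    E a b ∨ E b c ∨ E c d ∨ E d a)
include inj no

lemma star {b a c d : V} (hb : b ∈ vs φ) (ha : a ∈ vs φ) (hc : c ∈ vs φ) (hd : d ∈ vs φ) (e1 : adj b a)
    (e2 : adj c d) (n1 : ¬adj b d) (n2 : ¬adj c a) : par (pos b) (pos a) (pos c) (pos d) := by
  have t1 := tags e1
  have t2 := tags e2
  have k : ∀ {x y : V}, x.1 < 4 → ¬adj x y := fun h e => by have := tags e; omega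
  have k' : ∀ {x y : V}, 4 ≤ y.1 → ¬adj x y := fun h e => by have := tags e; omega
  have k1 := @k a
  have k2 := @k d
  have k3 := fun x => @k' x b (by omega)
  have k4 := fun x => @k' x c (by omega)
  have h1 : ¬Cyc4 (pos b) (pos c) (pos a) (pos d) := fun h => by
    have := no b hb c hc a ha d hd h (.inl e1) (.inl e2)
    simp [E, n1, n2, k1 (by omega), k2 (by omega), k3, k4] at this
  have h2 : ¬Cyc4 (pos b) (pos d) (pos a) (pos c) := fun h => by
    have := no b hb d hd a ha c hc h (.inl e1) (.inr e2)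
    simp [E, n1, n2, k1 (by omega), k2 (by omega), k3, k4] at this
  have : pos b ≠ pos c := fun e => n1 (inj _ hb _ hc e ▸ e2)
  have : pos a ≠ pos d := fun e => n1 (inj _ ha _ hd e ▸ e1)
  have : pos b ≠ pos d := fun e => by have := inj _ hb _ hd e; subst this; omega
  have : pos a ≠ pos c := fun e => by have := inj _ ha _ hc e; subst this; omega
  unfold Cyc4 par at *; omega

lemma star4 {b a a' c d d' : V} (hb : b ∈ vs φ) (ha : a ∈ vs φ) (ha' : a' ∈ vs φ) (hc : c ∈ vs φ) (hd : d ∈ vs φ)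
    (hd' : d' ∈ vs φ) (h : adj b a ∧ adj b a' ∧ adj c d ∧ adj c d' ∧ ¬adj b d ∧ ¬adj b d' ∧ ¬adj c a ∧ ¬adj c a') :
    par (pos a) (pos a') (pos d) (pos d') := by
  obtain ⟨e1, e2, e3, e4, n1, n2, n3, n4⟩ := h
  have h1 := star inj no hb ha hc hd e1 e3 n1 n3
  have h2 := star inj no hb ha' hc hd e2 e3 n1 n4
  have h3 := star inj no hb ha hc hd' e1 e4 n2 n3
  have h4 := star inj no hb ha' hc hd' e2 e4 n2 n4
  unfold par at *; grind

lemma link {t h i j k : ℕ} (ht : t = 4 ∨ t = 5) (hh : h < 4 * φ.length) (hi : i < 3) (hj : j < 3) (ij : i ≠ j)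
    (hk : k < 3 * φ.length) (h0 : (t, h, i, k, 0) ∈ vs φ) (h1 : (t, h, j, k, 1) ∈ vs φ) :
    cyc (pos (3, 0, 0, 0, 0)) (pos (0, h, i, 0, 0)) (pos (0, h, j, 0, 0)) ↔
      cyc (pos (3, 0, 0, 0, 0)) (pos (2, k, 1, 0, 0)) (pos (2, k, 0, 0, 0)) := by
  have m : ∀ i < 3, (0, h, i, 0, 0) ∈ vs φ := fun i hi =>
    List.mem_append_left _ (List.mem_map.2 ⟨(h, i), by simp [hh, hi], rfl⟩)
  have a := m i hi
  have b := m j hj
  have m' := fun x (hx : x ∈ _) => List.mem_append_right (as := _) (List.mem_flatMap.2 ⟨k, List.mem_range.2 hk, hx⟩) |>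
    (fun h : x ∈ vs φ => h)
  have s := m' (1, 0, 0, 0, 0) (by simp)
  have z := m' (3, 0, 0, 0, 0) (by simp)
  have x1 := m' (6, 0, 0, 0, 0) (by simp)
  have p := m' (2, k, 0, 0, 0) (by simp)
  have q := m' (2, k, 1, 0, 0) (by simp)
  have x3 := m' (7, 0, 0, k, 0) (by simp)
  have x4 := m' (8, 0, 0, k, 0) (by simp)
  have c1 := star4 inj no h0 a p h1 b q (by simp [adj, ht]; omega)
  have c2 := star4 inj no h0 a s x1 q z (by simp [adj, ht]; omega)
  have c3 := star4 inj no h1 b s x1 p z (by simp [adj, ht]; omega)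
  have c4 := star4 inj no x3 p q x4 s z (by simp [adj])
  have d : [(0, h, i, 0, 0), (0, h, j, 0, 0), (2, k, 0, 0, 0), (2, k, 1, 0, 0), (1, 0, 0, 0, 0),
      (3, 0, 0, 0, 0)].Pairwise fun x y => pos x ≠ pos y := List.Pairwise.imp_of_mem (R := (· ≠ ·))
    (fun {x y} hx hy n e => n (inj x (by simp at hx; grind) y (by simp at hy; grind) e)) (by simp [ij])
  simp at d
  unfold par cyc at *; omega

end

def cl (a b c : Bool) (i : ℕ) : ℕ :=
  if i = 0 then a.toNat + (!c).toNat else if i = 1 then b.toNat + (!a).toNat else c.toNat + (!b).toNat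

lemma cl_spec : ∀ a b c, nae a b c = true → (∀ i < 3, cl a b c i < 3) ∧
    (∀ i < 3, ∀ j < 3, cl a b c i = cl a b c j → i = j) ∧
    ∀ i < 3, cl a b c ((i + 1) % 3) < cl a b c i ↔ [a, b, c].getD i false = true := by decide

theorem red (φ : List (T3 ℕ)) (hφ : ∀ C ∈ φ, C.dist ∧ ∀ x ∈ C.vars, x < 3 * φ.length) :
    SatR nae φ ↔ Good (gr φ).G := by
  have gd : ∀ j < φ.length, φ.getD j (0, 0, 0) ∈ φ := fun j hj => by simp [hj]
  have vl : ∀ k < 3 * φ.length, var φ k < 3 * φ.length := fun k hk => (hφ _ (gd (k / 3) (by omega))).2 _ (by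
    have : k % 3 < (φ.getD (k / 3) (0, 0, 0)).vars.length := Nat.mod_lt _ (by decide)
    rw [var, List.getD_eq_getElem _ _ this]; exact List.getElem_mem _)
  let e := mkGrIso (vs φ) (es φ)
  constructor
  · rintro ⟨σ, hσ⟩
    let m := φ.length
    let C : ℕ → T3 ℕ := fun h => φ.getD (h - 3 * m) (0, 0, 0)
    let lr : ℕ → ℕ → ℕ := fun h => if h < 3 * m then cl (σ h) false true else cl (σ (C h).1) (σ (C h).2.1) (σ (C h).2.2)
    let rr : ℕ → ℕ → ℕ := fun k e => if σ (var φ k) then 1 - e else e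
    let rk : V → V := fun v => (v.1, v.2.1, if v.1 = 2 then rr v.2.1 v.2.2.1 else lr v.2.1 v.2.2.1, v.2.2.2.1,
      rr v.2.2.2.1 v.2.2.2.2)
    have l1 : ∀ h < 4 * m, (∀ i < 3, lr h i < 3) ∧ ∀ i < 3, ∀ j < 3, lr h i = lr h j → i = j := fun h hh => by
      simp only [lr]
      split_ifs with k
      · exact (cl_spec _ _ _ (by cases σ h <;> rfl)).imp_right And.left
      · exact (cl_spec _ _ _ (hσ _ (gd _ (by omega)))).imp_right And.left
    have l2 : ∀ k < 3 * m, ∀ e < 2, lr (var φ k) e = rr k e := fun k hk e he => by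
      simp only [lr, rr, if_pos (show var φ k < 3 * m from vl k hk)]
      obtain rfl | rfl : e = 0 ∨ e = 1 := by omega
      all_goals cases σ (var φ k) <;> rfl
    have l3 : ∀ k < 3 * m, lr (3 * m + k / 3) ((k + 1) % 3) < lr (3 * m + k / 3) (k % 3) ↔ rr k 1 < rr k 0 :=
      fun k hk => by
        have := (cl_spec _ _ _ (hσ _ (gd (k / 3) (by omega)))).2.2 (k % 3) (Nat.mod_lt _ (by decide))
        simp only [lr, rr, if_neg (show ¬3 * m + k / 3 < 3 * m by omega), C, Nat.add_sub_cancel_left]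
        rw [Nat.mod_add_mod] at this
        rw [this, show ∀ x y z, [σ x, σ y, σ z].getD (k % 3) false = σ ([x, y, z].getD (k % 3) 0) from fun x y z => by
          obtain h | h | h : k % 3 = 0 ∨ k % 3 = 1 ∨ k % 3 = 2 := by omega
          all_goals rw [h]; rfl]
        change σ (var φ k) = true ↔ _
        cases σ (var φ k) <;> simp
    have l4 : ∀ k, rr k 0 + rr k 1 = 1 := fun k => by simp only [rr]; split_ifs <;> rfl
    have W : ∀ v ∈ vs φ, (v.1 = 0 → v.2.1 < 4 * m ∧ v.2.2.1 < 3) ∧ (v.1 = 2 → v.2.1 < 3 * m ∧ v.2.2.1 < 2) ∧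
        v.2.2.2.1 < 3 * m ∧ v.2.2.2.2 < 2 ∧ (v.1 = 4 → v.2.1 = 3 * m + v.2.2.2.1 / 3 ∧
          v.2.2.1 = (v.2.2.2.1 + v.2.2.2.2) % 3) ∧ (v.1 = 5 → v.2.1 = var φ v.2.2.2.1 ∧ v.2.2.1 = v.2.2.2.2) := by
      simp only [vs, List.forall_mem_append, List.forall_mem_map, List.forall_mem_flatMap, List.forall_mem_cons,
        List.mem_range, Prod.forall]
      refine ⟨fun a b h => by simp at h ⊢; omega, fun k hk => by simp [m]; omega⟩
    have r2 : ∀ k, ∀ e < 2, rr k e < 2 := fun k e he => by simp only [rr]; split_ifs <;> omega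
    have r3 : ∀ k, ∀ e < 2, ∀ f < 2, rr k e = rr k f → e = f := fun k e he f hf => by
      simp only [rr]; split_ifs <;> omega
    have o1 : ∀ v ∈ vs φ, ok m (rk v) := fun v hv => by
      obtain ⟨w1, w2, w3, w4, w5, w6⟩ := W v hv
      refine ⟨fun h => ⟨(w1 h).1, ?_⟩, fun h => ⟨(w2 h).1, ?_⟩, fun _ => ⟨w3, r2 _ _ w4⟩, fun h => ⟨(w5 h).1, ?_⟩,
        fun h => ⟨(w6 h).1 ▸ vl _ w3, ?_⟩⟩ <;> simp only [rk] at h ⊢
      · rw [if_neg (by omega)]; exact (l1 _ (w1 h).1).1 _ (w1 h).2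
      · rw [if_pos h]; exact r2 _ _ (w2 h).2
      · rw [if_neg (by omega)]; exact (l1 _ (by omega)).1 _ (by omega)
      · rw [if_neg (by omega), (w6 h).1, (w6 h).2]; exact l2 _ w3 _ w4
    have o2 : ∀ b ∈ vs φ, ∀ a ∈ vs φ, adj (rk b) (rk a) ↔ adj b a := fun b hb a ha => by
      obtain ⟨w1, w2, -⟩ := W a ha
      obtain ⟨-, -, w3, w4, w5, w6⟩ := W b hb
      have := vl _ w3
      refine or_congr_left (and_congr_right fun h => or_congr (and_congr_right fun h' => or_congr_right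
        (and_congr_right fun k => ?_)) (or_congr_right (and_congr_right fun h' => or_congr_right
        (and_congr_right fun k => ?_)))) <;> simp only [rk] at h h' k ⊢
      · rw [if_neg (by omega), if_neg (by omega), ← k]
        exact ⟨(l1 _ (w1 h').1).2 _ (w1 h').2 _ (by omega), fun h => by rw [h]⟩
      · rw [if_pos h', ← k]
        exact ⟨r3 _ _ (w2 h').2 _ w4, fun h => by rw [h]⟩
    have o3 : ∀ b ∈ vs φ, ∀ c ∈ vs φ, two (rk b) (rk c) := fun b hb c hc h1 h2 h3 => by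
      obtain ⟨-, -, w3, w4, w5, w6⟩ := W b hb
      obtain ⟨-, -, -, u4, u5, u6⟩ := W c hc
      simp only [rk] at h1 h2 h3 ⊢
      rw [if_neg (by omega), if_neg (by omega), ← h2] at *
      rcases h3 with h | h
      · obtain ⟨a1, a2⟩ := w5 h
        obtain ⟨a3, a4⟩ := u5 (h1 ▸ h)
        have := l3 _ w3
        have := l4 b.2.2.2.1
        have := (l1 (3 * m + b.2.2.2.1 / 3) (by omega)).2 (b.2.2.2.1 % 3) (by omega) ((b.2.2.2.1 + 1) % 3) (by omega)
        rw [a1, a2, a3, a4]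
        obtain k | k : b.2.2.2.2 = 0 ∨ b.2.2.2.2 = 1 := by omega
        all_goals obtain k' | k' : c.2.2.2.2 = 0 ∨ c.2.2.2.2 = 1 := by omega
        all_goals rw [k, k']; simp only [add_zero, true_and]; omega
      · obtain ⟨a1, a2⟩ := w6 h
        obtain ⟨a3, a4⟩ := u6 (h1 ▸ h)
        rw [a1, a2, a3, a4, l2 _ w3 _ w4, l2 _ w3 _ u4]
        exact ⟨rfl, Iff.rfl, Iff.rfl⟩
    have g : ∀ b ∈ vs φ, ∀ a ∈ vs φ, ∀ c ∈ vs φ, ∀ d ∈ vs φ, adj b a → adj c d → ¬E b d → ¬E c a → _ :=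
      fun b hb a ha c hc d hd e1 e2 n1 n2 => geo (o1 b hb) (o1 a ha) (o1 c hc) (o1 d hd) (o3 b hb c hc)
        ((o2 b hb a ha).2 e1) ((o2 c hc d hd).2 e2) (fun h => n1 (.inl ((o2 b hb d hd).1 h)))
        fun h => n2 (.inl ((o2 c hc a ha).1 h))
    have lin : ∀ a ∈ vs φ, ∀ b ∈ vs φ, ∀ c ∈ vs φ, ∀ d ∈ vs φ, key m (rk a) ≤ key m (rk b) →
        key m (rk b) ≤ key m (rk c) → key m (rk c) ≤ key m (rk d) → E a c → E b d → ¬E a b → ¬E b c → ¬E c d →
        ¬E d a → False := fun a ha b hb c hc d hd k1 k2 k3 e1 e2 n1 n2 n3 n4 => by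
      have s : ∀ {x y}, ¬E x y → ¬E y x := fun h k => h k.symm
      rcases e1 with e1 | e1 <;> rcases e2 with e2 | e2
      · exact g a ha c hc b hb d hd e1 e2 (s n4) n2 (by omega)
      · exact g a ha c hc d hd b hb e1 e2 n1 (s n3) (by omega)
      · exact g c hc a ha b hb d hd e1 e2 n3 (s n1) (by omega)
      · exact g c hc a ha d hd b hb e1 e2 (s n2) n4 (by omega)
    have mono : ∀ u v : Fin (gr φ).n, key m (rk (e u).1) * (gr φ).n + u < key m (rk (e v).1) * (gr φ).n + v →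
        key m (rk (e u).1) ≤ key m (rk (e v).1) := fun u v h => by
      by_contra k
      have := Nat.mul_le_mul_right (gr φ).n (Nat.succ_le_of_lt (not_le.1 k))
      have := v.2
      rw [Nat.succ_mul] at *; omega
    refine ⟨fun u => key m (rk (e u).1) * (gr φ).n + u, fun u v h => Fin.ext ?_, ?_⟩
    · have := congrArg (· % (gr φ).n) h
      simpa [Nat.mod_eq_of_lt] using this
    · rintro ⟨a, b, c, d, h, e1, e2, n1, n2, n3, n4⟩
      rw [gr_adj] at e1 e2 n1 n2 n3 n4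
      rcases h with h | h | h | h
      · exact lin _ (e a).2 _ (e b).2 _ (e c).2 _ (e d).2 (mono _ _ h.1) (mono _ _ h.2.1) (mono _ _ h.2.2)
          e1 e2 n1 n2 n3 n4
      · exact lin _ (e b).2 _ (e c).2 _ (e d).2 _ (e a).2 (mono _ _ h.1) (mono _ _ h.2.1) (mono _ _ h.2.2)
          e2 e1.symm n2 n3 n4 n1
      · exact lin _ (e c).2 _ (e d).2 _ (e a).2 _ (e b).2 (mono _ _ h.1) (mono _ _ h.2.1) (mono _ _ h.2.2)
          e1.symm e2.symm n3 n4 n1 n2
      · exact lin _ (e d).2 _ (e a).2 _ (e b).2 _ (e c).2 (mono _ _ h.1) (mono _ _ h.2.1) (mono _ _ h.2.2)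
          e2.symm e1 n4 n1 n2 n3
  · rintro ⟨p, hp, h⟩
    classical
    let pos : V → ℕ := fun x => if h : x ∈ vs φ then p (e.symm ⟨x, h⟩) else 0
    have ps : ∀ x (h : x ∈ vs φ), pos x = p (e.symm ⟨x, h⟩) := fun x h => dif_pos h
    have inj : ∀ x ∈ vs φ, ∀ y ∈ vs φ, pos x = pos y → x = y := fun x hx y hy k => by
      rw [ps x hx, ps y hy] at k
      exact congrArg Subtype.val (e.symm.injective (hp k))
    have no : ∀ a ∈ vs φ, ∀ b ∈ vs φ, ∀ c ∈ vs φ, ∀ d ∈ vs φ, Cyc4 (pos a) (pos b) (pos c) (pos d) → E a c → E b d →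
        E a b ∨ E b c ∨ E c d ∨ E d a := fun a ha b hb c hc d hd k e1 e2 => by
      by_contra n
      rw [ps a ha, ps b hb, ps c hc, ps d hd] at k
      refine h ⟨_, _, _, _, k, ?_⟩
      simp only [gr_adj, e, RelIso.apply_symm_apply]
      tauto
    refine ⟨fun x => decide (cyc (pos (3, 0, 0, 0, 0)) (pos (0, x, 0, 0, 0)) (pos (0, x, 1, 0, 0))), fun C hC => ?_⟩
    obtain ⟨j, hj, rfl⟩ := List.getElem_of_mem hC
    have L : ∀ k < 3 * φ.length, cyc (pos (3, 0, 0, 0, 0)) (pos (0, var φ k, 0, 0, 0)) (pos (0, var φ k, 1, 0, 0)) ↔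
        cyc (pos (3, 0, 0, 0, 0)) (pos (0, 3 * φ.length + k / 3, k % 3, 0, 0))
          (pos (0, 3 * φ.length + k / 3, (k + 1) % 3, 0, 0)) := fun k hk => by
      have m' := fun x (hx : x ∈ _) => List.mem_append_right (as := _)
        (List.mem_flatMap.2 ⟨k, List.mem_range.2 hk, hx⟩) |> (fun h : x ∈ vs φ => h)
      have := vl k hk
      exact (link inj no (.inr rfl) (by omega) (by omega) (by omega) (by omega) hk (m' _ (by simp))
        (m' _ (by simp))).trans (link inj no (.inl rfl) (by omega) (by omega) (by omega) (by omega) hk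
        (m' _ (by simp)) (m' _ (by simp))).symm
    have l0 := L (3 * j) (by omega)
    have l1 := L (3 * j + 1) (by omega)
    have l2 := L (3 * j + 2) (by omega)
    simp only [var, show (3 * j) / 3 = j by omega, show (3 * j + 1) / 3 = j by omega, show (3 * j + 2) / 3 = j by omega,
      show (3 * j) % 3 = 0 by omega, show (3 * j + 1) % 3 = 1 by omega, show (3 * j + 2) % 3 = 2 by omega,
      show (3 * j + 2 + 1) % 3 = 0 by omega, List.getD_eq_getElem _ _ hj,
      T3.vars, List.getD_cons_zero, List.getD_cons_succ] at l0 l1 l2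
    have m : ∀ i < 3, (0, 3 * φ.length + j, i, 0, 0) ∈ vs φ := fun i hi =>
      List.mem_append_left _ (List.mem_map.2 ⟨(_, i), by simp [hi]; omega, rfl⟩)
    have z : (3, 0, 0, 0, 0) ∈ vs φ := List.mem_append_right _ (List.mem_flatMap.2 ⟨0, by simp; omega, by simp⟩)
    have d1 := mt (inj _ (m 0 (by omega)) _ (m 1 (by omega))) (by simp)
    have d2 := mt (inj _ (m 1 (by omega)) _ (m 2 (by omega))) (by simp)
    have d3 := mt (inj _ (m 0 (by omega)) _ (m 2 (by omega))) (by simp)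
    have d4 := mt (inj _ (m 0 (by omega)) _ z) (by simp)
    have d5 := mt (inj _ (m 1 (by omega)) _ z) (by simp)
    have d6 := mt (inj _ (m 2 (by omega)) _ z) (by simp)
    simp only [nae, l0, l1, l2, Bool.not_eq_true', Bool.and_eq_false_iff, beq_eq_false_iff_ne, ne_eq,
      decide_eq_decide]
    unfold cyc; omega

set_option synthInstance.maxSize 2000 in
theorem pt_gr : PT gr := by
  have h1 : PT vs := by unfold vs var T3.vars; fun_prop
  have h2 : PT fun e : V × V => decide (adj e.1 e.2) := by unfold adj; fun_prop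
  have h3 : PT es := PT.filter (h2.comp PT.snd') (by fun_prop)
  exact PT.mkGr h1 h3

end Pool.Agent.H.MP_7399ce_lc
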